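import Pool.Agent.MNU.StmtsU
import Pool.Agent.Helper2_MNT.LOC

set_option autoImplicit false

/-!
# MNU, row LOU: the local inequality (adapted from the row LOC of MNT by helper2)
-/

namespace Pool.Agent.MNU.H24

open Polynomial Pool.Agent.MNT Pool.Agent.MNU
open Pool.Agent.MNT.H2 (lev_sub_le log_eval)

theorem lou (tre : TrxStmt) (vlm : VlmStmt) (rep : RepStmt) (cnt : CnuStmt) : LouStmt := by
  intro g hg E _ v c₀ e₂ hQ he₂ P _ _ R hR hP z hz e N U W c he hsol hharm p q p' q' hpq hpq'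
  have htre := tre g hg
  have hn : (Fintype.card P : ℝ) = 4 * g + 10 := by
    rw [hP]; push_cast; ring
  have hc₀ : 0 ≤ c₀ := hQ.1
  obtain ⟨Λ, hΛ⟩ := rep E v c₀ hQ P (by omega) z hz
  obtain ⟨μ, hμ, hineq⟩ := htre P R hR hP Λ
  have hcnt := cnt g P Λ R (dis v z) _ hΛ
  have hRc : (Rᶜ.card : ℝ) = 2 * g + 9 := by
    rw [Finset.card_compl, hR, hP]
    have : 2 * g + 1 + (2 * g + 9) - (2 * g + 1) = 2 * g + 9 := by omega
    rw [this]; push_cast; ring
  have hg0 : (0 : ℝ) ≤ g := Nat.cast_nonneg g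
  have hEM : EM g = 3 * g * (2 * g + 9) * (1 + 3 * (4 * g + 10)) +
      (8 * g + 16) * (4 * g + 10) ^ 3 + 2 * (4 * (g : ℝ) + 10) := rfl
  rw [hEM]
  set n : ℝ := 4 * g + 10 with hndef
  have hn0 : 0 ≤ n := by rw [hndef]; positivity
  -- the bound at each point
  have hx : ∀ x ∈ Rᶜ, (Real.log (v ((U x).eval (z x))) - Real.log (v (c x))) / N x ≤
      (e₂ + c₀ + 3 * (n * c₀)) + Λ.En (μ x) x := by
    intro x hx
    have hxR : x ∉ R := Finset.mem_compl.1 hx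
    obtain ⟨hs, hsp⟩ := hsol x hxR
    have hN : (0 : ℝ) < N x := by
      have := hs.pos
      exact_mod_cast this
    have hU0 : U x ≠ 0 := by
      intro h0
      apply hs.ev
      rw [h0, eval_zero]
    have hroot : z x ∉ (U x).roots := by
      intro h0
      exact hs.ev (isRoot_of_mem_roots h0)
    have hb := vlm E v c₀ hQ P R z hz Λ _ hΛ x (U x).roots hroot e₂ (by
      intro d hd hgr
      obtain ⟨p, hp, hh⟩ := hharm Λ hΛ d hd hgr
      exact ⟨p, hp, hh x hxR⟩) (μ x) (hμ x hxR)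
    have hcard : (Multiset.card (U x).roots : ℝ) = N x := by
      rw [← hsp.natDegree_eq_card_roots, hs.deg]
    rw [← log_eval v hs hsp, hcard, hn] at hb
    rw [div_le_iff₀ hN]
    calc Real.log (v ((U x).eval (z x))) - Real.log (v (c x))
        ≤ (N x : ℝ) * (e₂ + c₀ + 3 * (n * c₀) + Λ.En (μ x) x) := hb
      _ = _ := by ring
  have hsum : ∑ x ∈ Rᶜ, (Real.log (v ((U x).eval (z x))) - Real.log (v (c x))) / N x ≤
      (2 * g + 9) * (e₂ + c₀ + 3 * (n * c₀)) + ∑ x ∈ Rᶜ, Λ.En (μ x) x := by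
    calc _ ≤ ∑ x ∈ Rᶜ, ((e₂ + c₀ + 3 * (n * c₀)) + Λ.En (μ x) x) := Finset.sum_le_sum hx
      _ = _ := by
        rw [Finset.sum_add_distrib, Finset.sum_const, nsmul_eq_mul, hRc]
  have h3g : (0 : ℝ) ≤ 3 * g := by positivity
  have hmul := mul_le_mul_of_nonneg_left hsum h3g
  have hΛ' : Λ.Rep (dis v z) (n * c₀) := by
    rw [← hn]; exact hΛ
  rw [hn] at hcnt
  have habs := (abs_le.1 hcnt).1
  -- levels
  have h1 := (abs_le.1 (hΛ' p' q' hpq')).2
  have h2 := (abs_le.1 (hΛ' p q hpq)).1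
  have h3 := lev_sub_le Λ {p', q'} {p, q}
  have h4 : dis v z p' q' - dis v z p q ≤ Λ.len + 2 * (n * c₀) := by linarith
  have h5 := mul_le_mul_of_nonneg_left h4 (by norm_num : (0 : ℝ) ≤ 1 / 30)
  have h6 : 0 ≤ 3 * (g : ℝ) * (2 * g + 9) := by positivity
  have h7 : 0 ≤ 3 * (g : ℝ) * (2 * g + 9) * (3 * n) * e₂ := by positivity
  have h8 : 0 ≤ (8 * (g : ℝ) + 16) * n ^ 3 * e₂ := by positivity
  have h9 : 0 ≤ 2 * n * e₂ := by positivity
  have h10 : 0 ≤ n * c₀ := by positivity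
  have hexp : (3 * (g : ℝ) * (2 * g + 9) * (1 + 3 * n) + (8 * g + 16) * n ^ 3 + 2 * n) *
      (c₀ + e₂) = 3 * g * ((2 * g + 9) * (e₂ + c₀ + 3 * (n * c₀))) +
        (8 * g + 16) * n ^ 2 * (n * c₀) + 2 * (n * c₀) +
        3 * (g : ℝ) * (2 * g + 9) * (3 * n) * e₂ + (8 * (g : ℝ) + 16) * n ^ 3 * e₂ +
        2 * n * e₂ := by ring
  rw [hexp]
  rw [mul_add] at h5 hmul
  linarith

end Pool.Agent.MNU.H24
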